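import Pool.Agent.K3h16.SF.Fin
import Pool.Agent.K3h52.SF.ADD
import Pool.Agent.K3h67.SF.KAlg
import Pool.Agent.K3h79.SF.Kidem
import Pool.Agent.K3h79.SF.Comp
import Pool.Agent.K3h79.SF.Alg2
import Pool.Agent.K3h13.SF.Krel
import Pool.Agent.K3h25.SF.Nil
import Pool.Agent.K3h92.SF.Lift
import Pool.Agent.K3h90.SF.Fit

/-!
# Sums of morphisms with vanishing powers: assembly of the bricks
-/

set_option autoImplicit false

namespace Pool.Agent.K3h16.SF

universe v u

/-- An object is Kimura-finite as soon as a sum of finitely many endomorphisms, each with a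
vanishing exterior or symmetric power, is an isomorphism. -/
theorem main : S_MAIN.{v, u} :=
  t_MAIN Pool.Agent.K3h79.SF.t_COMP Pool.Agent.K3h52.SF.t_ADD Pool.Agent.K3h13.SF.t_KREL
    Pool.Agent.K3h67.SF.t_KALG Pool.Agent.K3h79.SF.t_KIDEM Pool.Agent.K3h25.SF.t_NIL
    Pool.Agent.K3h92.SF.t_LIFT

/-- The full statement, with the Fitting idempotents of mixed sums. -/
theorem final : S_FINAL.{v, u} :=
  t_FINAL Pool.Agent.K3h79.SF.t_COMP Pool.Agent.K3h52.SF.t_ADD main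
    (t_EQN Pool.Agent.K3h13.SF.t_KREL Pool.Agent.K3h67.SF.t_KALG)
    (t_BOTH Pool.Agent.K3h79.SF.t_COMP Pool.Agent.K3h13.SF.t_KREL Pool.Agent.K3h67.SF.t_KALG
      Pool.Agent.K3h79.SF.t_KIDEM Pool.Agent.K3h25.SF.t_NIL)
    Pool.Agent.K3h79.SF.t_ALG2 Pool.Agent.K3h90.SF.t_FIT

end Pool.Agent.K3h16.SF
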