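import Pool.Agent.K3h16.SF.Main
import Pool.Agent.Y112.KD.Contr

/-!
# Morphisms which factor through an endomorphism with a vanishing power
-/

set_option autoImplicit false

open CategoryTheory Limits MonoidalCategory
open Pool.Agent.Y112.KD Pool.Agent.R905

namespace Pool.Agent.K3h16.SF

universe v u

section

variable {C : Type u} [Category.{v} C] [MonoidalCategory C] [SymmetricCategory C]
  [Preadditive C] [Linear ℚ C] [MonoidalPreadditive C] [MonoidalLinear ℚ C]

lemma pv_factor {η : ℚ} (hη : η * η = 1) {M N : C} (a : M ⟶ N) (g : N ⟶ N) (b : N ⟶ M) (n : ℕ)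
    (hg : PowerVanishes η g n) : PowerVanishes η (a ≫ g ≫ b) n := by
  intro Z h hh
  have h1 : tpm b n ≫ h = asym η N n ≫ tpm b n ≫ h := by
    rw [← Category.assoc, ← asym_nat, Category.assoc, asym_comp hη h hh]
  have h2 : tpm g n ≫ (tpm b n ≫ h) = 0 := by
    refine hg Z _ ?_
    intro s hs
    rw [h1, ← Category.assoc, (swap_asym hη N hs).1, Linear.smul_comp]
  rw [← tpm_comp, ← tpm_comp, Category.assoc, Category.assoc, h2, comp_zero]

end

end Pool.Agent.K3h16.SF
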