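import Mathlib

/-!
# Sums of morphisms with vanishing powers: two more algebraic statements
-/

set_option autoImplicit false

namespace Pool.Agent.K3h16.SF

universe v

/-- A monic equation for a sum, if the mixed products lie in a nil ideal `N`. -/
def S_ALG2 : Prop :=
  ∀ (R : Type v) [Ring R] [Algebra ℚ R] (N : R → Prop), (∀ x y, N x → N y → N (x + y)) →
    (∀ x y, N x → N (x * y)) → (∀ x y, N x → N (y * x)) →
    (∀ x, N x → ∃ k, x ^ (k + 1) = 0) →
    ∀ (a b : R) (P Q : Polynomial ℚ), P.Monic → Polynomial.X ∣ P → Polynomial.aeval a P = 0 →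
      Q.Monic → Polynomial.X ∣ Q → Polynomial.aeval b Q = 0 → N (a * b) → N (b * a) →
      ∃ S : Polynomial ℚ, S.Monic ∧ Polynomial.X ∣ S ∧ Polynomial.aeval (a + b) S = 0

/-- The Fitting idempotent. -/
def S_FIT : Prop :=
  ∀ (R : Type v) [Ring R] [Algebra ℚ R] (x : R) (S : Polynomial ℚ), S.Monic →
    Polynomial.X ∣ S → Polynomial.aeval x S = 0 →
    ∃ A : Polynomial ℚ, Polynomial.aeval x A * x * (Polynomial.aeval x A * x) =
      Polynomial.aeval x A * x ∧ ∃ k, (x * (1 - Polynomial.aeval x A * x)) ^ (k + 1) = 0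

end Pool.Agent.K3h16.SF
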