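import Pool.Agent.K3h16.SF.Fac
import Pool.Agent.K3h16.SF.Stm2

/-!
# Kimura-finiteness of sums of finite morphisms: the final theorem from the bricks
-/

set_option autoImplicit false

open CategoryTheory Limits MonoidalCategory
open Pool.Agent.Y112.KD Pool.Agent.R905

namespace Pool.Agent.K3h16.SF

universe v u

/-- The endomorphism `g` has a vanishing exterior power or a vanishing symmetric power. -/
def IsFiniteEnd {C : Type u} [Category.{v} C] [MonoidalCategory C] [SymmetricCategory C]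
    [Preadditive C] [Linear ℚ C] {N : C} (g : N ⟶ N) : Prop :=
  ∃ n, PowerVanishes (-1) g n ∨ PowerVanishes 1 g n

/-- The morphism `x` is a finite sum of morphisms each of which factors through some endomorphism
(of some object) with a vanishing exterior or symmetric power. -/
def IsFiniteSum {C : Type u} [Category.{v} C] [MonoidalCategory C] [SymmetricCategory C]
    [Preadditive C] [Linear ℚ C] {M M' : C} (x : M ⟶ M') : Prop :=
  ∃ (r : ℕ) (N : Fin r → C) (a : ∀ i, M ⟶ N i) (g : ∀ i, N i ⟶ N i) (b : ∀ i, N i ⟶ M'),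
    (∀ i, IsFiniteEnd (g i)) ∧ x = ∑ i, a i ≫ g i ≫ b i

/-- The statement of the final theorem. -/
def S_FINAL : Prop :=
  ∀ (C : Type u) [Category.{v} C] [MonoidalCategory C] [SymmetricCategory C]
    [Preadditive C] [Linear ℚ C] [MonoidalPreadditive C] [MonoidalLinear ℚ C]
    [RightRigidCategory C], UnitQ C →
    (∀ M : C, IsKimuraFinite M ↔ ∃ x : M ⟶ M, IsIso x ∧ IsFiniteSum x) ∧
    (∀ (M : C) (x : End M), IsFiniteSum (x : M ⟶ M) →
      (∃ P : Polynomial ℚ, P.Monic ∧ Polynomial.X ∣ P ∧ Polynomial.aeval x P = 0) ∧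
      ∃ A : Polynomial ℚ, Polynomial.aeval x A * x * (Polynomial.aeval x A * x) =
        Polynomial.aeval x A * x ∧ IsNilpotent (x * (1 - Polynomial.aeval x A * x)) ∧
        ∀ (E : C) (i : E ⟶ M) (r : M ⟶ E), i ≫ r = 𝟙 E →
          r ≫ i = ((Polynomial.aeval x A * x : End M) : M ⟶ M) → IsKimuraFinite E) ∧
    ∀ (M : C) (x : End M), (∃ m, PowerVanishes (-1) (x : M ⟶ M) m) →
      (∃ n, PowerVanishes 1 (x : M ⟶ M) n) → IsNilpotent x

section

variable {C : Type u} [Category.{v} C] [MonoidalCategory C] [SymmetricCategory C]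
  [Preadditive C] [Linear ℚ C] [MonoidalPreadditive C] [MonoidalLinear ℚ C]

omit [MonoidalPreadditive C] [MonoidalLinear ℚ C] in
lemma isFiniteSum_comp {M M' L L' : C} (p : L ⟶ M) (x : M ⟶ M') (q : M' ⟶ L')
    (h : IsFiniteSum x) : IsFiniteSum (p ≫ x ≫ q) := by
  obtain ⟨r, N, a, g, b, hg, hx⟩ := h
  refine ⟨r, N, fun i => p ≫ a i, g, fun i => b i ≫ q, hg, ?_⟩
  rw [hx, Preadditive.sum_comp, Preadditive.comp_sum]
  simp only [Category.assoc]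

lemma isFiniteSum_split (hA : S_ADD.{v, u}) {M : C} (x : M ⟶ M) (h : IsFiniteSum x) :
    ∃ a b : M ⟶ M, (∃ n, PowerVanishes (-1) a n) ∧ (∃ n, PowerVanishes 1 b n) ∧ a + b = x := by
  obtain ⟨r, N, a, g, b, hg, hx⟩ := h
  rw [hx]
  refine split_sum hA M r (fun i => a i ≫ g i ≫ b i) ?_
  intro i
  obtain ⟨n, h | h⟩ := hg i
  · exact ⟨n, Or.inl (pv_factor (by norm_num) (a i) (g i) (b i) n h)⟩
  · exact ⟨n, Or.inr (pv_factor (by norm_num) (a i) (g i) (b i) n h)⟩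

end

theorem t_FINAL (hC : S_COMP.{v, u}) (hA : S_ADD.{v, u}) (hM : S_MAIN.{v, u})
    (hE : S_EQN.{v, u}) (hB : S_BOTH.{v, u}) (h2 : S_ALG2.{v}) (hF : S_FIT.{v}) :
    S_FINAL.{v, u} := by
  intro C _ _ _ _ _ _ _ _ hU
  have key : ∀ M : C, (∃ x : M ⟶ M, IsIso x ∧ IsFiniteSum x) → IsKimuraFinite M := by
    rintro M ⟨x, hiso, r, N, a, g, b, hg, rfl⟩
    refine hM C hU M r (fun i => a i ≫ g i ≫ b i) ?_ hiso
    intro i
    obtain ⟨n, h | h⟩ := hg i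
    · exact ⟨n, Or.inl (pv_factor (by norm_num) (a i) (g i) (b i) n h)⟩
    · exact ⟨n, Or.inr (pv_factor (by norm_num) (a i) (g i) (b i) n h)⟩
  refine ⟨?_, ?_, ?_⟩
  · intro M
    constructor
    · rintro ⟨e, _, ⟨m, hm⟩, ⟨n, hn⟩⟩
      refine ⟨𝟙 M, inferInstance, 2, fun _ => M, fun _ => 𝟙 M, ![e, 𝟙 M - e], fun _ => 𝟙 M,
        ?_, ?_⟩
      · intro i
        fin_cases i
        · exact ⟨m, Or.inl hm⟩
        · exact ⟨n, Or.inr hn⟩
      · rw [Fin.sum_univ_two]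
        simp
    · exact key M
  · intro M x hx
    obtain ⟨a, b, ⟨m, ha⟩, ⟨n, hb⟩, hab⟩ := isFiniteSum_split hA x hx
    obtain ⟨P, hP1, hP2, hP3⟩ := hE C hU M a m (Or.inl ha)
    obtain ⟨Q, hQ1, hQ2, hQ3⟩ := hE C hU M b n (Or.inr hb)
    have hx' : ∃ P : Polynomial ℚ, P.Monic ∧ Polynomial.X ∣ P ∧ Polynomial.aeval x P = 0 := by
      have h3 := h2 (End M) (fun y => (∃ m, PowerVanishes (-1) (y : M ⟶ M) m) ∧
        ∃ n, PowerVanishes 1 (y : M ⟶ M) n) ?_ ?_ ?_ ?_ (a : End M) (b : End M) P Q hP1 hP2 hP3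
        hQ1 hQ2 hQ3 ?_ ?_
      · obtain ⟨S, hS1, hS2, hS3⟩ := h3
        refine ⟨S, hS1, hS2, ?_⟩
        have h4 : ((a : End M) + (b : End M) : End M) = x := hab
        rw [← h4]
        exact hS3
      · rintro y z ⟨⟨m1, h1⟩, ⟨n1, h1'⟩⟩ ⟨⟨m2, h2⟩, ⟨n2, h2'⟩⟩
        exact ⟨⟨m1 + m2, hA C (-1) (by norm_num) M y z m1 m2 h1 h2⟩,
          ⟨n1 + n2, hA C 1 (by norm_num) M y z n1 n2 h1' h2'⟩⟩
      · rintro y z ⟨⟨m1, h1⟩, ⟨n1, h1'⟩⟩
        exact ⟨⟨m1, (hC C (-1) (by norm_num) M y z m1 h1).2⟩,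
          ⟨n1, (hC C 1 (by norm_num) M y z n1 h1').2⟩⟩
      · rintro y z ⟨⟨m1, h1⟩, ⟨n1, h1'⟩⟩
        exact ⟨⟨m1, (hC C (-1) (by norm_num) M y z m1 h1).1⟩,
          ⟨n1, (hC C 1 (by norm_num) M y z n1 h1').1⟩⟩
      · rintro y ⟨⟨m1, h1⟩, ⟨n1, h1'⟩⟩
        exact hB C hU M y m1 n1 h1 h1'
      · exact ⟨⟨m, (hC C (-1) (by norm_num) M a b m ha).2⟩,
          ⟨n, (hC C 1 (by norm_num) M b a n hb).1⟩⟩
      · exact ⟨⟨m, (hC C (-1) (by norm_num) M a b m ha).1⟩,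
          ⟨n, (hC C 1 (by norm_num) M b a n hb).2⟩⟩
    refine ⟨hx', ?_⟩
    obtain ⟨S, hS1, hS2, hS3⟩ := hx'
    obtain ⟨A, hA1, k, hA2⟩ := hF (End M) x S hS1 hS2 hS3
    refine ⟨A, hA1, ⟨k + 1, hA2⟩, ?_⟩
    intro E i r hir hri
    refine key E ⟨𝟙 E, inferInstance, ?_⟩
    have h5 : 𝟙 E = i ≫ (x : M ⟶ M) ≫ ((Polynomial.aeval x A : End M) : M ⟶ M) ≫ r := by
      have h6 : (x : M ⟶ M) ≫ ((Polynomial.aeval x A : End M) : M ⟶ M) = r ≫ i := hri.symm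
      rw [← Category.assoc x, h6, Category.assoc, hir, Category.comp_id, hir]
    rw [h5]
    exact isFiniteSum_comp i x _ hx
  · rintro M x ⟨m, hm⟩ ⟨n, hn⟩
    obtain ⟨k, hk⟩ := hB C hU M x m n hm hn
    exact ⟨k + 1, hk⟩

end Pool.Agent.K3h16.SF
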