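import Pool.Agent.K3h16.SF.Stm

/-!
# Sums of morphisms with vanishing powers: the main theorem from the bricks
-/

set_option autoImplicit false

open CategoryTheory Limits MonoidalCategory
open Pool.Agent.Y112.KD Pool.Agent.R905
open Pool.Agent.TH829.Kim (K)

namespace Pool.Agent.K3h16.SF

universe v u

section

variable {C : Type u} [Category.{v} C] [MonoidalCategory C] [SymmetricCategory C]
  [Preadditive C] [Linear ℚ C] [MonoidalPreadditive C] [MonoidalLinear ℚ C]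

omit [MonoidalLinear ℚ C] in
lemma pv_zero (η : ℚ) (M : C) : PowerVanishes η (0 : M ⟶ M) 1 := by
  intro Z h _
  have h1 : tpm (0 : M ⟶ M) 1 = 0 := by
    change tpm (0 : M ⟶ M) 0 ⊗ₘ (0 : M ⟶ M) = 0
    rw [MonoidalCategory.tensorHom_def]
    simp
  rw [h1, zero_comp]

lemma split_sum (hA : S_ADD.{v, u}) (M : C) : ∀ (r : ℕ) (f : Fin r → (M ⟶ M)),
    (∀ i, ∃ n, PowerVanishes (-1) (f i) n ∨ PowerVanishes 1 (f i) n) →
    ∃ a b : M ⟶ M, (∃ n, PowerVanishes (-1) a n) ∧ (∃ n, PowerVanishes 1 b n) ∧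
      a + b = ∑ i, f i := by
  intro r
  induction r with
  | zero =>
    intro f _
    exact ⟨0, 0, ⟨1, pv_zero _ M⟩, ⟨1, pv_zero _ M⟩, by simp⟩
  | succ r ih =>
    intro f hf
    obtain ⟨a, b, ⟨m, ha⟩, ⟨n, hb⟩, hab⟩ := ih (fun i => f i.castSucc) (fun i => hf i.castSucc)
    obtain ⟨l, hl | hl⟩ := hf (Fin.last r)
    · refine ⟨a + f (Fin.last r), b, ⟨m + l, hA C (-1) (by norm_num) M _ _ m l ha hl⟩, ⟨n, hb⟩, ?_⟩
      rw [Fin.sum_univ_castSucc, ← hab]
      abel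
    · refine ⟨a, b + f (Fin.last r), ⟨m, ha⟩, ⟨n + l, hA C 1 (by norm_num) M _ _ n l hb hl⟩, ?_⟩
      rw [Fin.sum_univ_castSucc, ← hab]
      abel

end

/-- An endomorphism with a vanishing exterior power and a vanishing symmetric power is
nilpotent. -/
def S_BOTH : Prop :=
  ∀ (C : Type u) [Category.{v} C] [MonoidalCategory C] [SymmetricCategory C]
    [Preadditive C] [Linear ℚ C] [MonoidalPreadditive C] [MonoidalLinear ℚ C]
    [RightRigidCategory C] (_ : UnitQ C) (M : C) (x : End M) (m n : ℕ),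
    PowerVanishes (-1) (x : M ⟶ M) m → PowerVanishes 1 (x : M ⟶ M) n → ∃ k, x ^ (k + 1) = 0

/-- An endomorphism with a vanishing exterior power or a vanishing symmetric power satisfies a
monic equation without constant term. -/
def S_EQN : Prop :=
  ∀ (C : Type u) [Category.{v} C] [MonoidalCategory C] [SymmetricCategory C]
    [Preadditive C] [Linear ℚ C] [MonoidalPreadditive C] [MonoidalLinear ℚ C]
    [RightRigidCategory C] (_ : UnitQ C) (M : C) (x : End M) (n : ℕ),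
    (PowerVanishes (-1) (x : M ⟶ M) n ∨ PowerVanishes 1 (x : M ⟶ M) n) →
    ∃ P : Polynomial ℚ, P.Monic ∧ Polynomial.X ∣ P ∧ Polynomial.aeval x P = 0

theorem t_EQN (hK : S_KREL.{v, u}) (hP : S_KALG.{v}) : S_EQN.{v, u} := by
  intro C _ _ _ _ _ _ _ _ hU M x n h
  obtain h | h := h
  · obtain ⟨l, hl⟩ := hK C hU (-1) (by norm_num) M x n h
    exact hP (End M) (trq hU M) (-1) (by norm_num) l x hl
  · obtain ⟨l, hl⟩ := hK C hU 1 (by norm_num) M x n h
    exact hP (End M) (trq hU M) 1 (by norm_num) l x hl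

theorem t_BOTH (hC : S_COMP.{v, u}) (hK : S_KREL.{v, u}) (hP : S_KALG.{v}) (hI : S_KIDEM.{v})
    (hN : S_NIL.{v}) : S_BOTH.{v, u} := by
  intro C _ _ _ _ _ _ _ _ hU M x m n hm hn
  obtain ⟨P, h1, h2, h3⟩ := t_EQN hK hP C hU M x m (Or.inl hm)
  refine hN (End M) x P h1 h2 h3 ?_
  intro Q hQ
  obtain ⟨l, hl⟩ := hK C hU (-1) (by norm_num) M _ m
    ((hC C (-1) (by norm_num) M x (Polynomial.aeval x Q : End M) m hm).1)
  obtain ⟨l', hl'⟩ := hK C hU 1 (by norm_num) M _ n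
    ((hC C 1 (by norm_num) M x (Polynomial.aeval x Q : End M) n hn).1)
  exact hI (End M) (trq hU M) l l' _ hQ hl hl'

theorem t_MAIN (hC : S_COMP.{v, u}) (hA : S_ADD.{v, u}) (hK : S_KREL.{v, u}) (hP : S_KALG.{v})
    (hI : S_KIDEM.{v}) (hN : S_NIL.{v}) (hL : S_LIFT.{v}) : S_MAIN.{v, u} := by
  intro C _ _ _ _ _ _ _ _ hU M r f hf hiso
  obtain ⟨a, b, ⟨m, ha⟩, ⟨n, hb⟩, hab⟩ := split_sum hA M r f hf
  have ha' : PowerVanishes (-1) (a ≫ inv (∑ i, f i)) m :=
    (hC C (-1) (by norm_num) M a _ m ha).1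
  have hb' : PowerVanishes 1 (b ≫ inv (∑ i, f i)) n :=
    (hC C 1 (by norm_num) M b _ n hb).1
  have hs : a ≫ inv (∑ i, f i) + b ≫ inv (∑ i, f i) = 𝟙 M := by
    rw [← Preadditive.add_comp, hab, IsIso.hom_inv_id]
  generalize a ≫ inv (∑ i, f i) = g at ha' hs
  generalize b ≫ inv (∑ i, f i) = g' at hb' hs
  have hg' : g' = 𝟙 M - g := by rw [← hs]; abel
  subst hg'
  let x : End M := g
  have hx1 : PowerVanishes (-1) ((x * (1 - x) : End M) : M ⟶ M) m :=
    (hC C (-1) (by norm_num) M g (𝟙 M - g) m ha').2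
  have hx2 : PowerVanishes 1 ((x * (1 - x) : End M) : M ⟶ M) n :=
    (hC C 1 (by norm_num) M (𝟙 M - g) g n hb').1
  obtain ⟨k, hk⟩ := t_BOTH hC hK hP hI hN C hU M (x * (1 - x)) m n hx1 hx2
  obtain ⟨P, Q, h1, h2⟩ := hL (End M) x k hk
  refine ⟨(Polynomial.aeval x P * x : End M), h2, ⟨m, ?_⟩, ⟨n, ?_⟩⟩
  · exact (hC C (-1) (by norm_num) M g (Polynomial.aeval x P : End M) m ha').1
  · have h4 : (1 : End M) - Polynomial.aeval x P * x = Polynomial.aeval x Q * (1 - x) := by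
      rw [sub_eq_iff_eq_add, add_comm]
      exact h1.symm
    change PowerVanishes 1 (((1 : End M) - Polynomial.aeval x P * x : End M) : M ⟶ M) n
    rw [h4]
    exact (hC C 1 (by norm_num) M (𝟙 M - g) (Polynomial.aeval x Q : End M) n hb').1

end Pool.Agent.K3h16.SF
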