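import Pool.Agent.K3h8.SF.Stm2

/-!
# Brick N1 of helper8: homologically trivial letters are nilpotent on Schur summands
-/

set_option autoImplicit false
set_option linter.unusedSectionVars false
set_option linter.unusedSimpArgs false
set_option backward.isDefEq.respectTransparency false
set_option backward.defeqAttrib.useBackward true

open CategoryTheory Limits MonoidalCategory
open Pool.Agent.Y112.SR Pool.Agent.Y112.KD Pool.Agent.Y112.SC Pool.Agent.R905 Pool.Agent.K3h8.KS
open Pool.Agent.Y116.MT (tr)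
open Pool.Agent.K3h8.SF

namespace Pool.Agent.K3h16.SFN1

universe v u w

section

variable {C : Type u} [Category.{v} C] [MonoidalCategory C] [SymmetricCategory C]
  [Preadditive C] [Linear ℚ C] [MonoidalPreadditive C] [MonoidalLinear ℚ C]

/-- the letters `f` at the places of `X ⊗ ⋯ ⊗ X` -/
def lts {X : C} (f : X ⟶ X) : ∀ n : ℕ, List (End (tp X n))
  | 0 => []
  | n + 1 => (lts f n).map (fun a => wr X a) ++ [en (tp X n ◁ f)]

lemma lts_succ {X : C} (f : X ⟶ X) (n : ℕ) :
    lts f (n + 1) = (lts f n).map (fun a => wr X a) ++ [en (tp X n ◁ f)] := rfl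

lemma wr_comm_wl {Q X : C} (a : End Q) (f : X ⟶ X) :
    wr X a * en (Q ◁ f) = en (Q ◁ f) * wr X a := by
  rw [End.mul_def, End.mul_def]
  exact whisker_exchange (a : Q ⟶ Q) f

lemma lts_comm {X : C} (f : X ⟶ X) : ∀ n : ℕ, ∀ x ∈ lts f n, ∀ y ∈ lts f n, x * y = y * x := by
  intro n
  induction n with
  | zero => intro x hx; exact absurd hx (List.not_mem_nil)
  | succ n ih =>
    intro x hx y hy
    rw [lts_succ, List.mem_append, List.mem_map, List.mem_singleton] at hx hy
    rcases hx with ⟨a, ha, rfl⟩ | rfl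
    · rcases hy with ⟨b, hb, rfl⟩ | rfl
      · rw [← map_mul, ← map_mul, ih a ha b hb]
      · exact wr_comm_wl a f
    · rcases hy with ⟨b, hb, rfl⟩ | rfl
      · exact (wr_comm_wl b f).symm
      · rfl

lemma lts_prod {X : C} (f : X ⟶ X) (x : ℚ) : ∀ n : ℕ,
    ((lts f n).map (fun a => 1 + x • a)).prod = en (tpm (𝟙 X + x • f) n) := by
  intro n
  induction n with
  | zero => rfl
  | succ n ih =>
    rw [lts_succ, List.map_append, List.prod_append, List.map_map]
    have h1 : ((fun a : End (tp X (n + 1)) => 1 + x • a) ∘ fun a : End (tp X n) => wr X a) =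
        (fun a => wr X a) ∘ (fun a : End (tp X n) => 1 + x • a) := by
      funext a
      show 1 + x • wr X a = wr X (1 + x • a)
      rw [map_add, map_one, map_smul]
    have h2 : ((lts f n).map ((fun a : End (tp X (n + 1)) => 1 + x • a) ∘
        fun a : End (tp X n) => wr X a)).prod = wr X (en (tpm (𝟙 X + x • f) n)) := by
      rw [h1, ← List.map_map, ← ih]
      exact (map_list_prod (wr X) _).symm
    rw [h2, List.map_singleton, List.prod_singleton]
    have h3 : (1 + x • en (tp X n ◁ f) : End (tp X (n + 1))) =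
        en (tp X n ◁ (𝟙 X + x • f)) := by
      show (𝟙 (tp X n ⊗ X) + x • (tp X n ◁ f) : tp X n ⊗ X ⟶ tp X n ⊗ X) =
        tp X n ◁ (𝟙 X + x • f)
      rw [MonoidalPreadditive.whiskerLeft_add, MonoidalCategory.whiskerLeft_id,
        MonoidalLinear.whiskerLeft_smul]
    rw [h3, End.mul_def]
    show (tp X n ◁ (𝟙 X + x • f)) ≫ (tpm (𝟙 X + x • f) n ▷ X) = tpm (𝟙 X + x • f) n ⊗ₘ (𝟙 X + x • f)
    rw [MonoidalCategory.tensorHom_def']

lemma tpm_comm {X : C} (g : X ⟶ X) {n : ℕ} {s : tp X n ⟶ tp X n} (hs : IsSwap X n s) :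
    tpm g n ≫ s = s ≫ tpm g n := by
  induction hs with
  | last n => exact sw_nat _ _ _
  | lift n s hs ih =>
    have e1 : tpm g (n + 1) = tpm g n ⊗ₘ g := rfl
    rw [e1, ← tensorHom_id, tensorHom_comp_tensorHom, tensorHom_comp_tensorHom, ih,
      Category.id_comp, Category.comp_id]

lemma tpm_comm_adj {X : C} (g : X ⟶ X) {n : ℕ} {p : End (tp X n)}
    (hp : p ∈ Algebra.adjoin ℚ {s : End (tp X n) | IsSwap X n s}) :
    Commute (en (tpm g n)) p := by
  induction hp using Algebra.adjoin_induction with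
  | mem s hs =>
    show en (tpm g n) * s = s * en (tpm g n)
    rw [End.mul_def, End.mul_def]
    exact (tpm_comm g hs).symm
  | algebraMap r => exact Algebra.commutes' r _ |>.symm
  | add a b _ _ ha hb => exact ha.add_right hb
  | mul a b _ _ ha hb => exact ha.mul_right hb

lemma fl_eq {X : C} (m : ℕ) (g : End X) :
    en (fl m (g : X ⟶ X)) = cj (kap X m) (wr (tp X m) g) := rfl

lemma fl_pow {X : C} (m : ℕ) (f : End X) (L : ℕ) :
    en (fl m ((f ^ L : End X) : X ⟶ X)) = (en (fl m (f : X ⟶ X))) ^ L := by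
  rw [fl_eq, fl_eq, map_pow, map_pow]

lemma fl_succ {X : C} (m : ℕ) (f : X ⟶ X) : fl (m + 1) f = fl m f ▷ X := by
  have h1 : (kap X (m + 1)).inv = ((kap X m).inv ▷ X) ≫ (α_ X (tp X m) X).hom := rfl
  unfold fl
  rw [kap_succ, h1]
  simp only [comp_whiskerRight, Category.assoc, associator_inv_naturality_left_assoc,
    Iso.hom_inv_id_assoc]

lemma fl_mem {X : C} (f : X ⟶ X) : ∀ m : ℕ, en (fl m f) ∈ lts f (m + 1) := by
  intro m
  induction m with
  | zero =>
    have h1 : fl 0 f = tp X 0 ◁ f := by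
      have h2 : (kap X 0).inv = (λ_ X).hom ≫ (ρ_ X).inv := rfl
      unfold fl
      rw [kap_zero, h2]
      simp [tp]
    rw [h1]
    exact List.mem_singleton.mpr rfl
  | succ m ih =>
    rw [lts_succ, List.mem_append]
    left
    rw [List.mem_map]
    exact ⟨en (fl m f), ih, (fl_succ m f).symm⟩

end

section

variable {C : Type u} [Category.{v} C] [Preadditive C] [Linear ℚ C] [MonoidalCategory C]
  [MonoidalPreadditive C] [MonoidalLinear ℚ C] [SymmetricCategory C]
  {K : Type w} [Field K] (R : SuperRealisation C K)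

lemma map_tpm_one {X : C} (g : X ⟶ X) (hg : R.H.map g = 𝟙 _) : ∀ n : ℕ,
    R.H.map (tpm g n) = 𝟙 _ := by
  intro n
  induction n with
  | zero => exact R.H.map_id _
  | succ n ih =>
    have e1 : tpm g (n + 1) = tpm g n ⊗ₘ g := rfl
    rw [e1, ← bx_map, ih, hg, bx_one]

/-- the powers of `i ≫ (P - 1) ≫ r` -/
lemma key_pow {X T : C} (i : T ⟶ X) (r : X ⟶ T) (u : End X)
    (hcomm : Commute u (en (r ≫ i))) :
    ∀ N : ℕ, en (r ≫ (((en (i ≫ (u : X ⟶ X) ≫ r)) ^ N : End T) : T ⟶ T) ≫ i) =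
      (u * en (r ≫ i)) ^ N * en (r ≫ i) := by
  intro N
  induction N with
  | zero =>
    rw [pow_zero, pow_zero, one_mul]
    show r ≫ 𝟙 T ≫ i = r ≫ i
    rw [Category.id_comp]
  | succ N ih =>
    have h1 : en (r ≫ (((en (i ≫ (u : X ⟶ X) ≫ r)) ^ (N + 1) : End T) : T ⟶ T) ≫ i) =
        en (r ≫ (((en (i ≫ (u : X ⟶ X) ≫ r)) ^ N : End T) : T ⟶ T) ≫ i) * (u * en (r ≫ i)) := by
      rw [pow_succ, End.mul_def, End.mul_def, End.mul_def]
      simp only [en, Category.assoc]
    rw [h1, ih, pow_succ]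
    have h2 : en (r ≫ i) * (u * en (r ≫ i)) = u * en (r ≫ i) * en (r ≫ i) := by
      rw [← mul_assoc, ← hcomm.eq]
    rw [mul_assoc, h2, ← mul_assoc, ← mul_assoc]

end

section

variable (C : Type u) [Category.{v} C] [Preadditive C] [Linear ℚ C] [MonoidalCategory C]
  [MonoidalPreadditive C] [MonoidalLinear ℚ C] [SymmetricCategory C] [RightRigidCategory C]

theorem t_N1s (hA : ALG.{v}) : N1s.{v, u, w} C := by
  intro K _ R X T m i r hS hT
  suffices hmain : ∀ f : X ⟶ X, R.H.map f = 0 →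
      ∃ L : ℕ, (r ≫ i) ≫ fl m (((en f) ^ L : End X) : X ⟶ X) = 0 from fun f hf => hmain f hf
  intro f hf
  obtain ⟨hir, hadj⟩ := hS
  have hK := R_charZero R
  have hidem : en (r ≫ i) * en (r ≫ i) = en (r ≫ i) := by
    rw [End.mul_def]
    show (r ≫ i) ≫ (r ≫ i) = r ≫ i
    rw [Category.assoc, reassoc_of% hir]
  have hcomm : ∀ x : ℚ, Commute (((lts f (m + 1)).map (fun a => 1 + x • a)).prod)
      (en (r ≫ i)) := by
    intro x
    rw [lts_prod]
    exact tpm_comm_adj _ hadj
  have hnil : ∀ x : ℚ, IsNilpotent ((((lts f (m + 1)).map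
      (fun a => 1 + x • a)).prod - 1) * en (r ≫ i)) := by
    intro x
    set u : End (tp X (m + 1)) := ((lts f (m + 1)).map (fun a => 1 + x • a)).prod - 1
      with hu
    have hucomm : Commute u (en (r ≫ i)) := (hcomm x).sub_left (Commute.one_left _)
    have hu' : (u : tp X (m + 1) ⟶ tp X (m + 1)) = tpm (𝟙 X + x • f) (m + 1) - 𝟙 _ := by
      rw [hu, lts_prod]
      rfl
    have hmap : R.H.map (u : tp X (m + 1) ⟶ tp X (m + 1)) = 0 := by
      rw [hu', Functor.map_sub, map_tpm_one, CategoryTheory.Functor.map_id, sub_self]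
      rw [Functor.map_add, R_smul, hf, smul_zero, add_zero, CategoryTheory.Functor.map_id]
    obtain ⟨N, hN⟩ := hT (en (i ≫ (u : tp X (m + 1) ⟶ tp X (m + 1)) ≫ r)) (by
      show R.H.map (i ≫ (u : tp X (m + 1) ⟶ tp X (m + 1)) ≫ r) = 0
      rw [Functor.map_comp, Functor.map_comp, hmap, zero_comp, comp_zero])
    have h1 := key_pow i r u hucomm N
    rw [hN] at h1
    have h2 : (u * en (r ≫ i)) ^ N * en (r ≫ i) = 0 := by
      rw [← h1]
      show r ≫ (0 : T ⟶ T) ≫ i = 0
      rw [zero_comp, comp_zero]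
    refine ⟨N + 1, ?_⟩
    rw [pow_succ, hucomm.eq, ← mul_assoc, ← hucomm.eq, h2, zero_mul]
  obtain ⟨L, hL⟩ := hA (End (tp X (m + 1))) (lts f (m + 1)) (en (r ≫ i))
    (lts_comm _ _) hidem hcomm hnil (en (fl m f)) (fl_mem _ m)
  refine ⟨L, ?_⟩
  have h3 := fl_pow m (en f) L
  have h4 : en (fl m (((en f) ^ L : End X) : X ⟶ X)) * en (r ≫ i) = 0 := by
    rw [h3]
    exact hL
  rw [End.mul_def] at h4
  exact h4

end

end Pool.Agent.K3h16.SFN1
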