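import Pool.Agent.R905.Defs
import Pool.Agent.Y112.KD.Kill
import Pool.Agent.TH829.Kim.Alg

/-!
# Sums of morphisms with vanishing powers: statements of the bricks
-/

set_option autoImplicit false

open CategoryTheory Limits MonoidalCategory
open Pool.Agent.Y112.KD Pool.Agent.R905
open Pool.Agent.TH829.Kim (K)

namespace Pool.Agent.K3h16.SF

universe v u

/-- Composites and multiples. -/
def S_COMP : Prop :=
  ∀ (C : Type u) [Category.{v} C] [MonoidalCategory C] [SymmetricCategory C]
    [Preadditive C] [Linear ℚ C] [MonoidalPreadditive C] [MonoidalLinear ℚ C]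
    (η : ℚ) (_ : η * η = 1) (M : C) (f g : M ⟶ M) (n : ℕ),
    PowerVanishes η f n → PowerVanishes η (f ≫ g) n ∧ PowerVanishes η (g ≫ f) n

/-- Sums. -/
def S_ADD : Prop :=
  ∀ (C : Type u) [Category.{v} C] [MonoidalCategory C] [SymmetricCategory C]
    [Preadditive C] [Linear ℚ C] [MonoidalPreadditive C] [MonoidalLinear ℚ C]
    (η : ℚ) (_ : η * η = 1) (M : C) (f g : M ⟶ M) (m n : ℕ),
    PowerVanishes η f m → PowerVanishes η g n → PowerVanishes η (f + g) (m + n)

/-- The trace relation of an endomorphism with a vanishing power. -/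
def S_KREL : Prop :=
  ∀ (C : Type u) [Category.{v} C] [MonoidalCategory C] [SymmetricCategory C]
    [Preadditive C] [Linear ℚ C] [MonoidalPreadditive C] [MonoidalLinear ℚ C]
    [RightRigidCategory C] (hU : UnitQ C) (η : ℚ) (_ : η * η = 1) (M : C) (f : M ⟶ M) (n : ℕ),
    PowerVanishes η f n →
      ∃ l, K (trq hU M) η l (fun _ => (f : End M)) = 0

/-- The trace relation gives a monic equation without constant term. -/
def S_KALG : Prop :=
  ∀ (R : Type v) [Ring R] [Algebra ℚ R] (t : R →ₗ[ℚ] ℚ) (η : ℚ) (_ : η * η = 1) (n : ℕ) (f : R),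
    K t η n (fun _ => f) = 0 →
      ∃ P : Polynomial ℚ, P.Monic ∧ Polynomial.X ∣ P ∧ Polynomial.aeval f P = 0

/-- An idempotent with two vanishing powers is zero. -/
def S_KIDEM : Prop :=
  ∀ (R : Type v) [Ring R] [Algebra ℚ R] (t : R →ₗ[ℚ] ℚ) (n m : ℕ) (e : R), e * e = e →
    K t (-1) n (fun _ => e) = 0 → K t 1 m (fun _ => e) = 0 → e = 0

/-- Nilpotency from a monic equation without constant term, if the idempotents in the ideal of
the multiples vanish. -/
def S_NIL : Prop :=
  ∀ (R : Type v) [Ring R] [Algebra ℚ R] (x : R) (P : Polynomial ℚ), P.Monic →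
    Polynomial.X ∣ P → Polynomial.aeval x P = 0 →
    (∀ Q : Polynomial ℚ, Polynomial.aeval x Q * x * (Polynomial.aeval x Q * x) =
      Polynomial.aeval x Q * x → Polynomial.aeval x Q * x = 0) → ∃ k, x ^ (k + 1) = 0

/-- The idempotent attached to `f` if `f (1 - f)` is nilpotent. -/
def S_LIFT : Prop :=
  ∀ (R : Type v) [Ring R] [Algebra ℚ R] (f : R) (k : ℕ), (f * (1 - f)) ^ (k + 1) = 0 →
    ∃ P Q : Polynomial ℚ, Polynomial.aeval f P * f + Polynomial.aeval f Q * (1 - f) = 1 ∧
      (Polynomial.aeval f P * f) * (Polynomial.aeval f P * f) = Polynomial.aeval f P * f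

/-- The theorem: an object is Kimura-finite as soon as a sum of finitely many endomorphisms, each
with a vanishing exterior or symmetric power, is an isomorphism. -/
def S_MAIN : Prop :=
  ∀ (C : Type u) [Category.{v} C] [MonoidalCategory C] [SymmetricCategory C]
    [Preadditive C] [Linear ℚ C] [MonoidalPreadditive C] [MonoidalLinear ℚ C]
    [RightRigidCategory C] (_ : UnitQ C) (M : C) (r : ℕ) (f : Fin r → (M ⟶ M)),
    (∀ i, ∃ n, PowerVanishes (-1) (f i) n ∨ PowerVanishes 1 (f i) n) →
    IsIso (∑ i, f i) → IsKimuraFinite M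

end Pool.Agent.K3h16.SF
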